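import Pool.Agent.helper87.FM.Spec
import Pool.Agent.helper50.FM.PS2
import Pool.Agent.helper6.FM.R1D
import Pool.Agent.helper79.FM.R2F
import Pool.Agent.helper42.FM.EXC
import Pool.Agent.helper89.FM.CR2
import Pool.Agent.helper18.FM.SU1
import Pool.Agent.helper9.FM.SU2
import Pool.Agent.helper72.FM.GSB
import Pool.Agent.helper29.FM.POE
import Pool.Agent.helper49.FM.SPE
import Pool.Agent.helper74.FM.SKL
import Pool.Agent.helper96.FM.SMT
import Pool.Agent.helper43.FM.BGK
import Pool.Agent.helper92.FM.KRB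
import Pool.Agent.helper64.FM.CGB
import Pool.Agent.helper20.FM.REB
import Pool.Agent.helper87.FS.DEL
import Pool.Agent.helper8.FS.DJI
import Pool.Agent.helper22.FS.MOS
import Pool.Agent.helper51.FS.RGS

/-!
# MP_abccb5_co, project FM: assembly
-/

set_option autoImplicit false

namespace Pool.Agent.FM

open Polynomial Matrix Pool.Agent.helper42.NS Pool.Agent.FS

theorem T_SU2 : SU2_stmt := SU2 (CR2 EXC)
theorem T_GSB : GSB_stmt := GSB R1D R2F SU1 T_SU2
theorem T_SMT : SMT_stmt := SMT (SPE POE PS2) SKL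
theorem T_KRB : KRB_stmt := KRB T_GSB T_SMT (BGK EXC)
theorem main : FIB_stmt := FIB T_KRB CGB REB (MOS DELb DJI) RGS

/-- There are at least `2 ^ (n choose 2)` graphs on `n` vertices. -/
theorem card_ge (n : ℕ) : 2 ^ (n.choose 2) ≤ Nat.card (SimpleGraph (Fin n)) := by
  classical
  have h := (CXF n 0).2
  rw [zero_mul, add_zero, Set.ncard_def] at h
  have h2 : Nat.card {HB : Matrix (Fin n) (Fin n) ℤ × (Fin 0 → Fin n → Bool) // IsGr HB.1} = 2 ^ (n.choose 2) := by
    rw [← h]
    rfl
  rw [← h2]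
  let f : {HB : Matrix (Fin n) (Fin n) ℤ × (Fin 0 → Fin n → Bool) // IsGr HB.1} → SimpleGraph (Fin n) := fun HB =>
    { Adj := fun i j => HB.1.1 i j = 1
      symm := ⟨fun i j h => by
        have h3 := HB.2.2.2 i j
        rw [← h3]; exact h⟩
      loopless := ⟨fun i h => by
        have h3 := HB.2.2.1 i
        rw [h3] at h
        exact absurd h (by norm_num)⟩ }
  refine Nat.card_le_card_of_injective f ?_
  rintro ⟨⟨A, B⟩, hA⟩ ⟨⟨A', B'⟩, hA'⟩ h3
  have h4 : A = A' := by
    ext i j
    have h5 : (f ⟨(A, B), hA⟩).Adj i j ↔ (f ⟨(A', B'), hA'⟩).Adj i j := by rw [h3]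
    have h6 : A i j = 1 ↔ A' i j = 1 := h5
    rcases hA.1 i j with h7 | h7 <;> rcases hA'.1 i j with h8 | h8
    · exact h7.trans h8.symm
    · have h9 : A i j = 1 := h6.2 h8
      exact absurd (h9.symm.trans (show A i j = 0 from h7)) (by norm_num)
    · have h9 : A' i j = 1 := h6.1 h7
      exact absurd (h9.symm.trans (show A' i j = 0 from h8)) (by norm_num)
    · exact h7.trans h8.symm
  subst h4
  have h5 : B = B' := Subsingleton.elim _ _
  subst h5
  rfl

end Pool.Agent.FM
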