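import Pool.Agent.helper87.FS.Spec
import Pool.Agent.helper42.NS.Main2
import Pool.Agent.helper29.FS.CXF
import Pool.Agent.helper3.FS.KRA

/-!
# MP_abccb5_co, project FM: BOUNDEDLY MANY SPECTRA DETERMINE ALMOST ALL GRAPHS (all but a proportion `2 ^ (5 - k)` for `k` marked vertices), rows

Page: `/team-store/C6_MP_abccb5_boundedspectra_helper87.md`. The project combines FS (marked vertices) with the strong form of NS (helper42: `Spec2.lean`, `Main2.lean`). Most rows are landed rows of NS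
with other numbers (sizes up to `2 ^ (10 a + 10)` instead of `2 ^ (10 a)`, `Good (11 a + 10)` instead of `Good (10 a + 3)`): copy the old file, change the numbers, prefix the lemmas with the new row name.

RULES. Row `fm:XXX`: file `Pool/Agent/<seat>/FM/XXX.lean`, `import Pool.Agent.helper87.FM.Spec`, `set_option autoImplicit false`, `namespace Pool.Agent.FM`,
`open Polynomial Matrix Pool.Agent.helper42.NS Pool.Agent.FS`, auxiliary lemmas prefixed `XXX_`, theorem line as in the lock note (other rows of FM only as hypotheses). All landed rows of NS may be used (`Main2.lean` is imported: `T_FBB`, `T_PSB`, `T_LCA`, `T_LOA`,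
`T_PTQ`, `T_CRU`, `T_TAL`, `T_R2E`, `R2A`, `KI2`, `HER`, `POT`, `CNQ FIN`, `PBH`, `PTP`, `VTX`, `VT2`, `FIN`, the lemmas `POT_s`, `POT_mem`, `POT_card`, `CNT_fin`, `STP_fin`, `GE2_pi`, ...) and `CXF`, `KRA` of FS. No straight double quotes, no `convert`, `congr!`, `native_decide`.
-/

set_option autoImplicit false

namespace Pool.Agent.FM

open Polynomial Matrix Pool.Agent.helper42.NS Pool.Agent.FS

/-- The first hereditary property, for sizes up to `2 ^ (10 a + 10)`. -/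
def W1 (a : ℕ) (t : ℕ) (H : Matrix (Fin t) (Fin t) ℤ) : Prop :=
  Good (11 * a + 10) H ∧ (2 ^ (10 * a - 1) ≤ t → R1 a H ∧ R2 a H)

/-- The second hereditary property. -/
def W2 (a p : ℕ) (t : ℕ) (H : Matrix (Fin t) (Fin t) ℤ) : Prop :=
  W1 a t H ∧ (3 * 2 ^ (10 * a - 2) ≤ t → ∀ P : Pt, Above p P → crk P H ≤ 24)

/-- The final property. -/
def W3 (a p : ℕ) {m : ℕ} (H : Matrix (Fin m) (Fin m) ℤ) : Prop :=
  Hered (W1 a) m H ∧ (∀ P : Pt, Above p P → crk P H ≤ 24) ∧ ∀ P : Pt, 2 ^ a ≤ qP P → crk P H ≤ 81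

/-! ## Block 1: the landed rows with larger sizes -/

/-- **PS2** (short; old row `PSS`, file helper96/NS/PSS.lean). One step at a small point, with `crk P H ≤ 55 a + 53` instead of `50 a + 18`. Same proof: `q ^ (c + 1) ≤ 2 ^ (a (55 a + 54)) ≤ 2 ^ (2 ^ a)` for `a ≥ 20`. -/
def PS2_stmt : Prop := ∀ (a t : ℕ) (P : Pt) (H : Matrix (Fin t) (Fin t) ℤ), 20 ≤ a →
  (∀ i j, H i j = H j i) → R2 a H → qP P < 2 ^ a → crk P H ≤ 55 * a + 53 →
  (∑ b : Fin t → Bool, (qP P : ℝ) ^ crk P (bord H (ind b))) ≤ 2 ^ t * ((qP P : ℝ) ^ crk P H / 2 + qP P + 1)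

/-- **R1D** (medium; old row `R1C`, file helper32/NS/R1C.lean). Most graphs satisfy `R1`, sizes up to `2 ^ (10 a + 10)`. Same proof with `t ^ τ ≤ 2 ^ ((10 a + 10) τ)`, `τ = 2 ^ (7 a)`: the exponent `(10 a + 10) τ + τ + 14 a + 1 - (t - τ) / 2 + 1` is at most `- 11 a` for `t ≥ 2 ^ (10 a - 1)`. -/
def R1D_stmt : Prop := ∀ (a t : ℕ), 20 ≤ a → 2 ^ (10 * a - 1) ≤ t → t ≤ 2 ^ (10 * a + 10) →
  cnt t (fun H => ¬ R1 a H) * 2 ^ (11 * a) ≤ 2 ^ (t.choose 2)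

/-- **R2F** (medium; old row `R2C`, file helper46/NS/R2C.lean). Most good graphs satisfy `R2`, sizes up to `2 ^ (10 a + 10)`, `C = 5 (11 a + 10) + 3 = 55 a + 53`. The exponent `3 a + (10 a + 10) τ + 180 a² τ + 60 a (55 a + 53 + 2 τ) + τ - t` is at most `- 11 a`. -/
def R2F_stmt : Prop := ∀ (a t : ℕ), 20 ≤ a → 2 ^ (10 * a - 1) ≤ t → t ≤ 2 ^ (10 * a + 10) →
  cnt t (fun H => Good (11 * a + 10) H ∧ ¬ R2 a H) * 2 ^ (11 * a) ≤ 2 ^ (t.choose 2)

/-- **EXC** (medium; old row `EXS`, file helper32/NS/EXS.lean, now with the count). At most `2 ^ (46 - 3 a)` of all `36`-tuples have a bad point above `p`: by `PTP` at most `t ≤ 2 ^ (10 a + 10)` points above `p` have `crk P H ≠ 0`; they are not above a small prime, so by `R1` and `T_LOA` every nonzero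
eigenvector is orthogonal to at most `2 ^ (t - a)` vectors; `KI2` with `e = a`, `k = 36`, `d ≤ 24`: at most `2 ^ 36 2 ^ (- 13 a)` of the tuples for each of these points. -/
def EXC_stmt : Prop := ∀ (a t p : ℕ) (H : Matrix (Fin t) (Fin t) ℤ), 20 ≤ a → p.Prime → 2 ^ (3 * a) ≤ p → (∀ i j, H i j = H j i) →
  R1 a H → t ≤ 2 ^ (10 * a + 10) → (∀ P : Pt, Above p P → crk P H ≤ 24) →
  Set.ncard {B : Fin 36 → Fin t → Bool | ∃ P : Pt, Above p P ∧ Bad P H B} * 2 ^ (3 * a) ≤ 2 ^ 46 * 2 ^ (36 * t)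

/-- **CR2** (short; old row `CRE`, file helper96/NS/CRE.lean). At most `2 ^ (40 a + 41)` points have `crk P H ≥ 37`: by EXC (`2 ^ 46 < 2 ^ (3 a)`) some `36`-tuple has no bad point above `p`; `T_PTQ` with `L = 10 a + 10`. -/
def CR2_stmt : Prop := ∀ (a t p : ℕ) (H : Matrix (Fin t) (Fin t) ℤ), 20 ≤ a → p.Prime → 2 ^ (3 * a) ≤ p → IsGr H → R1 a H →
  t ≤ 2 ^ (10 * a + 10) → (∀ P : Pt, Above p P → crk P H ≤ 24) →
  ∀ s : Finset Pt, (∀ P ∈ s, 37 ≤ crk P H) → s.card ≤ 2 ^ (40 * a + 41)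

/-- **SU1** (medium; old row `ST1`, file helper98/NS/ST1.lean). The points above `p`. `POT` for `Q = W1 a`, `t₀ = 2 ^ (10 a - 1)`, `Δ = 2 ^ (a - 3)`, `β = 2 ^ (10 a + 10) Δ`, `X₀ = 2 ^ (10 a + 10) Δ ^ (55 a + 53)`, `T = Δ ^ 25`. Result `2 ^ (10 a + 12) Δ ^ (-24) = 2 ^ (84 - 14 a)`. -/
def SU1_stmt : Prop := ∀ (a t p : ℕ), 20 ≤ a → p.Prime → 2 ^ (3 * a) ≤ p → 3 * 2 ^ (10 * a - 2) ≤ t → t ≤ 2 ^ (10 * a + 10) →
  cnt t (fun H => Hered (W1 a) t H ∧ ∃ P : Pt, Above p P ∧ 25 ≤ crk P H) * 2 ^ (14 * a) ≤ 2 ^ 84 * 2 ^ (t.choose 2)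

/-- **SU2** (medium; old row `ST2`, file helper48/NS/ST2.lean; CR2 instead of CRE). The big points, any size `m` between `2 ^ (10 a)` and `2 ^ (10 a + 10)`. `POT` for `Q = W2 a p`, `t₀ = 3 * 2 ^ (10 a - 2)`, `β = M = 2 ^ (40 a + 41)`, `X₀ = M Δ ^ (55 a + 53)`, `T = Δ ^ 45`, `m - t₀ ≥ 2 ^ (10 a - 2)`.
Result `3 M Δ ^ (-45) ≤ 2 ^ (40 a + 43 - 45 (a - 3)) = 2 ^ (178 - 5 a)`. -/
def SU2_stmt : Prop := ∀ (a m p : ℕ), 20 ≤ a → p.Prime → 2 ^ (3 * a) ≤ p → 2 ^ (10 * a) ≤ m → m ≤ 2 ^ (10 * a + 10) →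
  cnt m (fun H => Hered (W2 a p) m H ∧ ∃ P : Pt, 2 ^ a ≤ qP P ∧ 82 ≤ crk P H) * 2 ^ (5 * a) ≤ 2 ^ 178 * 2 ^ (m.choose 2)

/-- **GSB** (medium; old row `GS`, file helper98/NS/GS.lean; from R1D, R2F, SU1, SU2). Almost all graphs satisfy `W3`. `T_CRU` with `L = 11 a + 10`: at most `2 ^ (- a - 1)`. `HER` for `fun t H => 2 ^ (10 a - 1) ≤ t → t ≤ 2 ^ (10 a + 10) → R1 a H ∧ (Good (11 a + 10) H → R2 a H)` with R1D, R2F:
`2 ^ (10 a + 11) · 2 · 2 ^ (- 11 a) = 2 ^ (12 - a)`; the others satisfy `Hered (W1 a) m`. `HER` for `fun t H => 3 * 2 ^ (10 a - 2) ≤ t → t ≤ 2 ^ (10 a + 10) → Hered (W1 a) t H → ∀ P, Above p P → crk P H ≤ 24` with SU1: `2 ^ (10 a + 11) 2 ^ (84 - 14 a) = 2 ^ (95 - 4 a)`; the others satisfy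
`Hered (W2 a p) m`. SU2: `2 ^ (178 - 5 a)`. The sum is at most `2 ^ (14 - a)`. -/
def GSB_stmt : Prop := ∀ (a m p : ℕ), 60 ≤ a → p.Prime → 2 ^ (3 * a) ≤ p → 2 ^ (10 * a) ≤ m → m ≤ 2 ^ (10 * a + 10) →
  cnt m (fun H => ¬ W3 a p H) * 2 ^ a ≤ 2 ^ 14 * 2 ^ (m.choose 2)

/-! ## Block 2: the small points, by the first moment -/

/-- **POE** (short; file helper63/NS/POT.lean). The inequality `h1` inside the proof of `POT` (before Markov): `∑ X m H ≤ 2 ^ (m choose 2) (X₀ / 2 ^ (m - t₀) + 2 β)`. -/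
def POE_stmt : Prop := ∀ (Q : ∀ t : ℕ, Matrix (Fin t) (Fin t) ℤ → Prop) (X : ∀ t : ℕ, Matrix (Fin t) (Fin t) ℤ → ℝ) (t₀ m : ℕ) (X₀ β : ℝ), t₀ ≤ m → 0 ≤ β → 0 ≤ X₀ →
  (∀ t H, 0 ≤ X t H) → (∀ H, IsGr H → Hered Q t₀ H → X t₀ H ≤ X₀) →
  (∀ t, t₀ ≤ t → t < m → ∀ H, IsGr H → Hered Q t H →
    ∀ s : Finset (Fin t → Bool), (∀ b ∈ s, Hered Q (t + 1) (bord H (ind b))) →
      (∑ b ∈ s, X (t + 1) (bord H (ind b))) ≤ 2 ^ t * (X t H / 2 + β)) →
  ∑ H ∈ POT_s Q m, X m H ≤ 2 ^ (m.choose 2) * (X₀ / 2 ^ (m - t₀) + 2 * β)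

/-- **SPE** (short-medium; from POE, PS2; old lemma `ST3_one`, file helper50/NS/ST3.lean). The mean of `q ^ crk` at one small point. POE for `Q = W1 a`, `t₀ = 2 ^ (10 a - 1)`, `X t H = q ^ (crk P H)`, `β = q + 1`, `X₀ = (2 ^ a) ^ (55 a + 53) ≤ 2 ^ (m - t₀)` (`m - t₀ ≥ 2 ^ (10 a - 1)`). -/
def SPE_stmt : Prop := ∀ (a m : ℕ) (P : Pt), 20 ≤ a → 2 ^ (10 * a) ≤ m → m ≤ 2 ^ (10 * a + 10) → qP P < 2 ^ a →
  ∑ H ∈ POT_s (W1 a) m, (qP P : ℝ) ^ crk P H ≤ 2 ^ (m.choose 2) * (2 * (qP P : ℝ) + 3)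

/-- **SKL** (short-medium; old lemma `GE2_small`, file helper98/NS/GE2.lean). At a small point at most `q ^ crk` nonzero eigenvectors, each orthogonal to at most `2 ^ m (1 / q + 2 ^ (- 2 ^ a))` vectors (`T_LCA` for the line spanned by it), independently for the `k` vectors (`GE2_pi` for general `k`). -/
def SKL_stmt : Prop := ∀ (a m k : ℕ) (P : Pt) (H : Matrix (Fin m) (Fin m) ℤ), 20 ≤ a → R2 a H → qP P < 2 ^ a →
  (Set.ncard {B : Fin k → Fin m → Bool | Bad P H B} : ℝ) ≤ 2 ^ (m * k) * ((qP P : ℝ) ^ crk P H * (1 / (qP P : ℝ) + 1 / 2 ^ (2 ^ a)) ^ k)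

/-- **SMT** (medium; from SPE, SKL; `CNQ FIN`, `GE2_sum`, `ST3_sum`). All small points. The number of pairs `(H, B)` is at most the sum over the points `P` with `q = qP P < 2 ^ a` (at most `q` points for each `q`, `CNQ`) of `∑_(H ∈ POT_s (W1 a) m) ncard {B | Bad P H B}`, at most
`2 ^ (m choose 2 + k m) ∑_q q (2 q + 3) (1 / q + 2 ^ (- 2 ^ a)) ^ k`. As `2 q + 3 ≤ 7 q / 2` and `(1 / q + 2 ^ (- 2 ^ a)) ^ k ≤ (15 / 14) q ^ (- k)` (`k ≤ a`), this is at most `(15 / 4) ∑_(q ≥ 2) q ^ (2 - k)`, and `2 ^ k` times this is `15 ∑_(q ≥ 2) (2 / q) ^ (k - 2) ≤ 16`, as for `q ≥ 3`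
`(2 / q) ^ (k - 2) ≤ (2 / 3) ^ (k - 4) (2 / q) ^ 2`, `k ≥ 176`, `∑_(q ≥ 2) 1 / q ^ 2 ≤ 1` (`sum_Ioc_inv_sq_le_sub`). -/
def SMT_stmt : Prop := ∀ (a m k : ℕ), 20 ≤ a → 176 ≤ k → k ≤ a → 2 ^ (10 * a) ≤ m → m ≤ 2 ^ (10 * a + 10) →
  Set.ncard {HB : Matrix (Fin m) (Fin m) ℤ × (Fin k → Fin m → Bool) | IsGr HB.1 ∧ Hered (W1 a) m HB.1 ∧ ∃ P : Pt, qP P < 2 ^ a ∧ Bad P HB.1 HB.2} * 2 ^ k ≤
    31 * 2 ^ (m.choose 2 + k * m)

/-! ## Block 3: the big points and the lattice -/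

/-- **BGK** (medium; from EXC; old row `GE2`, file helper98/NS/GE2.lean, lemma `GE2_big`, now with the count). (i) the first `36` vectors have a bad point above `p`: at most `2 ^ (46 - 3 a)` (EXC). (ii) otherwise at most `2 ^ (4 (10 a + 10) + 1) = 2 ^ (40 a + 41)` points are bad for them (`T_PTQ`), and for each of those
with `2 ^ a ≤ qP P` at most `2 ^ 140 2 ^ (- 60 (a - 1))` of the tuples of the other `140` vectors are bad (`T_FBB`, `KI2` with `e = a - 1`, `k = 140`, `crk ≤ 81`): `2 ^ (241 - 20 a)`. Together at most `2 ^ (- a)`. (`Fin 176 = Fin (36 + 140)`, `Fin.append`; `PTP`/`FIN`: all points lie above a prime.) -/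
def BGK_stmt : Prop := ∀ (a m p : ℕ) (H : Matrix (Fin m) (Fin m) ℤ), 40 ≤ a → p.Prime → 2 ^ (3 * a) ≤ p → m ≤ 2 ^ (10 * a + 10) → IsGr H → R1 a H → R2 a H →
  (∀ P : Pt, Above p P → crk P H ≤ 24) → (∀ P : Pt, 2 ^ a ≤ qP P → crk P H ≤ 81) →
  Set.ncard {B : Fin 176 → Fin m → Bool | ∃ P : Pt, 2 ^ a ≤ qP P ∧ Bad P H B} * 2 ^ a ≤ 2 ^ (176 * m)

/-- **KRB** (medium; from GSB, SMT, BGK). If the lattice is not everything there is a bad point for `(H, B)` (`PBH`; see the end of `GE2`). Choose a prime `p ≥ 2 ^ (3 a)` (`Nat.exists_infinite_primes`). Cases: `¬ W3 a p H`: at most `2 ^ (14 - a)` (GSB, times all `B`); a small bad point: SMT; a big bad point and `W3`: it is bad for the first `176` vectors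
(`Fin.castLE`), at most `2 ^ (- a)` (BGK; `R1`, `R2` from `Hered (W1 a) m H`, `2 ^ (10 a - 1) ≤ m`). As `k + 20 ≤ a`, `2 ^ k (2 ^ (14 - a) + 2 ^ (- a)) ≤ 1`. (`CXF` for finiteness and the number of pairs; count fibre by fibre.) -/
def KRB_stmt : Prop := ∀ (k a m : ℕ), 176 ≤ k → k + 20 ≤ a → 2 ^ (10 * a) ≤ m → m ≤ 2 ^ (10 * a + 10) →
  Set.ncard {HB : Matrix (Fin m) (Fin m) ℤ × (Fin k → Fin m → Bool) | IsGr HB.1 ∧ Kry HB.1 (Set.range fun i => ind (HB.2 i)) ≠ ⊤} * 2 ^ k ≤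
    32 * 2 ^ (m.choose 2 + k * m)

/-- **CGB** (medium; compare fs:CGR; `CXF`, `KRA`). The graphs on `k + m` vertices, the first `k` vertices marked. `G ↦ adj G` is injective with values in `IsGr`; an adjacency matrix on `Fin (k + m)` is determined by its blocks `C = A[k, k]` (`2 ^ (k.choose 2)` possibilities), `H` and the rows `B i`. If `Kry (adj G) (uv ..) ≠ ⊤` then (`KRA`) `(H, B)` is in the first set. -/
def CGB_stmt : Prop := ∀ k m c d : ℕ,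
  Set.ncard {HB : Matrix (Fin m) (Fin m) ℤ × (Fin k → Fin m → Bool) | IsGr HB.1 ∧ Kry HB.1 (Set.range fun i => ind (HB.2 i)) ≠ ⊤} * c ≤ d * 2 ^ (m.choose 2 + k * m) →
  Nat.card {G : SimpleGraph (Fin (k + m)) // Kry (adj G) (uv (Set.range (Fin.castAdd m))) ≠ ⊤} * c ≤ d * 2 ^ ((k + m).choose 2)

/-- **REB** (medium; compare fs:REL, file helper72/FS/REL.lean). Any set `S` of at least `k` marks. Take `S' ⊆ S` with `k` elements and a bijection `Fin (k + m) ≃ Fin n` which maps the first `k` elements onto `S'`. It induces a bijection of the graphs, and `Kry` is monotone in the set of vectors. -/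
def REB_stmt : Prop := ∀ (k m n c d : ℕ) (S : Finset (Fin n)), n = k + m → k ≤ S.card →
  Nat.card {G : SimpleGraph (Fin (k + m)) // Kry (adj G) (uv (Set.range (Fin.castAdd m))) ≠ ⊤} * c ≤ d * 2 ^ ((k + m).choose 2) →
  Nat.card {G : SimpleGraph (Fin n) // Kry (adj G) (uv (S : Set (Fin n))) ≠ ⊤} * c ≤ d * 2 ^ (n.choose 2)

/-- the theorem -/
def FIB_stmt : Prop := ∀ (k n : ℕ) (S : Finset (Fin n)), 176 ≤ k → 2 ^ (10 * k + 201) ≤ n → k ≤ S.card →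
  2 ^ k * Nat.card {G : SimpleGraph (Fin n) // ¬ Det S G} ≤ 32 * 2 ^ (n.choose 2)

theorem FIB (h1 : KRB_stmt) (h2 : CGB_stmt) (h3 : REB_stmt) (h4 : MOS_stmt) (h5 : RGS_stmt) : FIB_stmt := by
  classical
  intro k n S hk hn hS
  have hkn : k ≤ n := hS.trans (by simpa using Finset.card_le_univ S)
  obtain ⟨m, hm⟩ : ∃ m, n = k + m := ⟨n - k, by omega⟩
  have hk2 : k < 2 ^ k := Nat.lt_two_pow_self
  have h200 : 2 ^ (10 * k + 200) + 2 ^ (10 * k + 200) = 2 ^ (10 * k + 201) := by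
    rw [← two_mul, ← pow_succ']
  have h201 : 2 ^ k ≤ 2 ^ (10 * k + 200) := Nat.pow_le_pow_right (by norm_num) (by omega)
  have hm0 : 2 ^ (10 * k + 200) ≤ m := by omega
  set e : ℕ := Nat.log 2 m with he
  have hmpos : m ≠ 0 := by
    have : 0 < 2 ^ (10 * k + 200) := by positivity
    omega
  have he1 : 2 ^ e ≤ m := Nat.pow_log_le_self 2 hmpos
  have he2 : m < 2 ^ (e + 1) := Nat.lt_pow_succ_log_self (by norm_num) m
  have he3 : 10 * k + 200 ≤ e := by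
    by_contra hlt
    have : 2 ^ (e + 1) ≤ 2 ^ (10 * k + 200) := Nat.pow_le_pow_right (by norm_num) (by omega)
    omega
  have hK := h1 k (e / 10) m hk (by omega)
    ((Nat.pow_le_pow_right (by norm_num) (by omega)).trans he1)
    (he2.le.trans (Nat.pow_le_pow_right (by norm_num) (by omega)))
  have hR := h3 k m n (2 ^ k) 32 S hm hS (h2 k m (2 ^ k) 32 hK)
  refine le_trans (Nat.mul_le_mul_left _ ?_) ((mul_comm _ _).trans_le hR)
  refine Nat.card_le_card_of_injective (fun G => ⟨G.1, fun hK => G.2 ?_⟩) ?_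
  · intro H u h0 hu
    have hgr : ∀ G : SimpleGraph (Fin n), IsGr (adj G) := by
      intro G
      refine ⟨fun i j => ?_, fun i => ?_, fun i j => ?_⟩
      · unfold adj
        split_ifs
        · exact Or.inr rfl
        · exact Or.inl rfl
      · unfold adj
        rw [if_neg (G.loopless.irrefl i)]
      · unfold adj
        rw [G.adj_comm]
    obtain ⟨σ, hσ, hS'⟩ := h5 n S (adj G.1) (adj H) u (hgr _) (hgr _) hK (h4 n S G.1 H u h0 hu)
    refine ⟨⟨σ, ?_⟩, hS'⟩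
    intro a b
    have h := hσ a b
    unfold adj at h
    by_cases h1 : H.Adj (σ a) (σ b) <;> by_cases h2 : G.1.Adj a b <;> simp_all
  · intro G G' h
    have h' := congrArg Subtype.val h
    exact Subtype.ext h'

end Pool.Agent.FM
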